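import Pool.Agent.R887.DivB

/-!
The Iitaka dimension and the numerical dimension of divisors on varieties with multi-valued maps.
-/

set_option autoImplicit false

open FF Pool.Agent.W602.GT Pool.Agent.Y172 Pool.Agent.R887

/-- Let `X` be a normal complex projective variety of dimension `n`, with generic point `y`, and `D`
a `ℚ`-Cartier divisor on `X`, for instance a nef divisor on a klt variety with `K_X ~_ℚ 0`.

(1) Let `j ≤ n`, `X'` any normal projective variety of dimension `n`, with generic point `y'`, `D'` a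
`ℚ`-divisor on `X'`, and `X' ← X'' → X` a multi-valued map: a variety `X''` with a generically finite
rational map `p` to `X'` and a dominant rational map `f` to `X`, such that, over the prime divisors
of `X'`, `f^* D` is at most `p^* D'` up to `ℚ`-linear equivalence on `X''`. If `M H' - D'` is
pseudo-effective (`M` may be `0`), `H'` a hyperplane section of `X'`, and the intersection number
`(f ^* H) ^ (n - j) · (p ^* H') ^ j` is at most `c deg f`, then `⟨D ^ j⟩ · H ^ (n - j) ≤ c M ^ j`.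

(2) Let `k < n`. Suppose that for all `ε > 0` there are such `X'`, `D'`, `X''`, `p`, `f`, `M` and `c`
with `j = k + 1` and `c M ^ (k + 1) ≤ ε`. If the Iitaka dimension of `D` is at least `k`, then the
Iitaka dimension and the numerical dimension of `D` are both equal to `k`.

(3) All divisors `D'` have a finite `M`, so that in (2) one can take fixed `X'`, `D'` and `c → 0`.

Thus a nef divisor `D` as in (2) on a klt variety `X` with `K_X ~_ℚ 0` is semiample, by Kawamata's
theorem on nef and abundant divisors. -/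
theorem Pool.Agent.Results.MP_cda8c3_ag.DivisorSources.result
    {K : Type} [Field K] [Algebra ℂ K] {N n : ℕ} {y : Fin (N + 1) → K} (hy : NormalModel y)
    (hn : Algebra.trdeg ℂ K = n) {D : Place ℂ K → ℚ} (hD : IsQCartier y D) :
    (∀ j ≤ n, ∀ (K' L : Type) [Field K'] [Algebra ℂ K'] [Field L] [Algebra ℂ L] (N' : ℕ)
      (y' : Fin (N' + 1) → K') (D' : Place ℂ K' → ℚ) (φ : K →ₐ[ℂ] L) (ψ : K' →ₐ[ℂ] L) (M c : ℝ),
      NormalModel y' → Algebra.trdeg ℂ K' = n → HyperplaneGe y' D' M →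
      FiniteDimensional ψ.fieldRange L → DivisorPullBackLe φ ψ D y' D' →
      MultiDegreeLe φ ψ y y' (n - j) j c → DivisorProductLe y n D j (c * M ^ j)) ∧
    (∀ k < n, (∀ ε : ℝ, 0 < ε → ∃ (K' L : Type) (_ : Field K') (_ : Algebra ℂ K') (_ : Field L)
        (_ : Algebra ℂ L) (N' : ℕ) (y' : Fin (N' + 1) → K') (D' : Place ℂ K' → ℚ)
        (φ : K →ₐ[ℂ] L) (ψ : K' →ₐ[ℂ] L) (M c : ℝ), NormalModel y' ∧ Algebra.trdeg ℂ K' = n ∧
        HyperplaneGe y' D' M ∧ FiniteDimensional ψ.fieldRange L ∧ DivisorPullBackLe φ ψ D y' D' ∧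
        MultiDegreeLe φ ψ y y' (n - (k + 1)) (k + 1) c ∧ c * M ^ (k + 1) ≤ ε) →
      IitakaGe y D k → IitakaEq y D k ∧ DivisorNumDimEq y n D k) ∧
    ∀ {K' : Type} [Field K'] [Algebra ℂ K'] {N' : ℕ} {y' : Fin (N' + 1) → K'},
      NormalModel y' → ∀ {D' : Place ℂ K' → ℚ}, {P | IsPrimeDivisor y' P ∧ D' P ≠ 0}.Finite →
      ∃ M : ℝ, 0 ≤ M ∧ HyperplaneGe y' D' M := by
  have h1 : ∀ j ≤ n, ∀ (K' L : Type) [Field K'] [Algebra ℂ K'] [Field L] [Algebra ℂ L] (N' : ℕ)
      (y' : Fin (N' + 1) → K') (D' : Place ℂ K' → ℚ) (φ : K →ₐ[ℂ] L) (ψ : K' →ₐ[ℂ] L) (M c : ℝ),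
      NormalModel y' → Algebra.trdeg ℂ K' = n → HyperplaneGe y' D' M →
      FiniteDimensional ψ.fieldRange L → DivisorPullBackLe φ ψ D y' D' →
      MultiDegreeLe φ ψ y y' (n - j) j c → DivisorProductLe y n D j (c * M ^ j) := by
    intro j hj K' L _ _ _ _ N' y' D' φ ψ M c hy' hn' hM hψ hpull hc
    exact divisor_degree_le hy' hn' hM hy hn hD φ ψ hψ hpull hj hc
  refine ⟨h1, fun k hk h hkod => ?_, fun hy' D' hD' => exists_hyperplaneGe hy' hD'⟩
  have hnum : DivisorProductLe y n D (k + 1) 0 := by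
    refine DivisorProductLe.of_forall fun ε hε => ?_
    obtain ⟨K', L, _, _, _, _, N', y', D', φ, ψ, M, c, hy', hn', hM, hψ, hpull, hc, hcε⟩ := h ε hε
    exact ⟨_, by linarith, h1 (k + 1) hk K' L N' y' D' φ ψ M c hy' hn' hM hψ hpull hc⟩
  exact ⟨⟨hkod, iitaka_lt_product hy hn hk hnum⟩, hnum, fun h0 =>
    iitaka_lt_product hy hn hk.le h0 hkod⟩
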