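import Pool.Agent.R800.UA.Weil

/-!
# Abundance for nef Weil divisors on klt quotients of complex tori, with a uniform exponent

Let `X = V / Γ` be the quotient of a complex torus of dimension `n` by any finite group. It is klt, and
`K_X` is torsion if the group acts freely in codimension one. Nef divisors on `X`, which need not be
Cartier, are given by factors of automorphy of `Γ` (`WeilClass`, in `Pool.Agent.R800.UA.WeilDefs`).
`IsTorusQuotient` is defined in `Pool.Agent.W594.SYZ.Defs2`, `IsNefForm` in `Pool.Agent.W594.SYZ.TQDefs`,
`HOneZero` in `Pool.Agent.TH735.AQ.Defs`, and `gl3 n` (the order of the general linear group of rank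
`2 n` over the field with three elements) in `Pool.Agent.R800.UA.Rep`.
-/

set_option autoImplicit false

namespace Pool.Agent.Results.MP_cda8c3_ag.UniformExponent

open Pool.Agent.W594.SYZ2 Pool.Agent.TH735.AQ Pool.Agent.R800.UA

/-- For every `n` there is an explicit `m ≥ 1` such that for every quotient `X = V / Γ` of a complex
torus of dimension `n` by a finite group with `H^1(X, O_X) = 0` and every nef Weil divisor `D` on `X` the
divisor `m D` is Cartier and the linear system `|m D|` has no base points. -/
theorem result : ∀ n : ℕ, 1 ≤ 4 * gl3 n ^ 6 ∧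
    ∀ (V : Type*) [NormedAddCommGroup V] [NormedSpace ℂ V] [FiniteDimensional ℂ V]
      (Γ : Subgroup (V ≃ᵃ[ℂ] V)), Module.finrank ℂ V = n → IsTorusQuotient Γ → HOneZero Γ →
      ∀ (D : WeilClass Γ) (H : V → V → ℂ), D.HasChernForm H → IsNefForm H →
        (D.mult (4 * gl3 n ^ 6)).BasePointFree := by
  intro n
  refine ⟨?_, fun V _ _ _ Γ hd hΓ h01 D H hc hn => weil_uni hΓ h01 hd hc hn⟩
  have := gl3_pos n
  have h1 : 0 < 4 * gl3 n ^ 6 := by positivity
  exact h1

end Pool.Agent.Results.MP_cda8c3_ag.UniformExponent
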